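import Mathlib
import Pool.Agent.Helper14.NW.Defs
import Pool.Agent.Helper14.NW.Main

/-!
MP_56e317_lc. If `2^ℵ₀ < 2^ℵ₁` and `2^ℵ₀ < ℵ_{ω₁}`, then a closed discrete subspace `Y` of size
`ℵ₁` of a normal space is separated as soon as fewer than `2^ℵ₁` (in particular at most `2^ℵ₀`)
basic functions witness its normality. So the implication `2^ℵ₀ < 2^ℵ₁ → (A)` can only fail
when `2^ℵ₀ ≥ ℵ_{ω₁}`.
-/

open Cardinal Ordinal Set

universe u

namespace Pool.Agent.Results.MP_56e317_lc.ContinuumBelowAlephOmegaOne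

open Pool.Agent.Helper14.NW

theorem result
    (h₁ : (𝔠 : Cardinal.{u}) < 2 ^ (ℵ₁ : Cardinal.{u}))
    (h₂ : (𝔠 : Cardinal.{u}) < ℵ_ ω₁)
    (X : Type u) [TopologicalSpace X] [NormalSpace X]
    (Y : Set X) (_hclosed : IsClosed Y) (_hdiscrete : DiscreteTopology Y) (hY : #Y = ℵ₁)
    (B : Y → Set (Set X)) (hB : ∀ y : Y, IsLocalBase (y : X) (B y))
    (_hBY : ∀ y : Y, ∀ U ∈ B y, ∀ z ∈ Y, z ∈ U → z = y)
    (F : Set (Y → Set X)) (hF : ∀ f ∈ F, ∀ y : Y, f y ∈ B y)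
    (hcard : #F < 2 ^ (ℵ₁ : Cardinal.{u}))
    (hwit : ∀ Z : Set Y, ∃ f ∈ F, WitnessesNormality f Z) :
    IsSeparatedSubset Y := by
  have hmax : max (#F) 𝔠 < 2 ^ (ℵ₁ : Cardinal.{u}) := max_lt hcard h₁
  refine separated_of_few Y hY (max (#F) 𝔠) (le_max_right _ _) hmax ?_ F ?_ (le_max_left _ _) hwit
  · intro T hT
    refine (cov_of_lt 𝔠 h₂ T hT).mono ?_
    rw [max_eq_left aleph0_le_continuum]
    exact le_max_right _ _
  · intro f hf y
    exact (hB y).1 _ (hF f hf y)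

end Pool.Agent.Results.MP_56e317_lc.ContinuumBelowAlephOmegaOne
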