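import Mathlib
import Pool.Agent.Helper14.NW.Defs
import Pool.Agent.Helper14.NW.Main

/-!
MP_56e317_lc, a theorem of ZFC without cardinal arithmetic: if there are more than `ℵ₁` functions
from a set of size `ℵ₁` to itself, any two of which agree on a countable set only, and fewer basic
functions than that witness the normality of `Y`, then `Y` is separated.
-/

open Cardinal Ordinal Set

universe u

namespace Pool.Agent.Results.MP_56e317_lc.EventuallyDifferentFunctions

open Pool.Agent.Helper14.NW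

theorem result
    (Ω : Type u) (hΩ : #Ω = ℵ₁) (G : Set (Ω → Ω))
    (hG : ∀ f ∈ G, ∀ g ∈ G, f ≠ g → {a | f a = g a}.Countable)
    (hG₁ : ℵ₁ < #G)
    (X : Type u) [TopologicalSpace X] [NormalSpace X]
    (Y : Set X) (_hclosed : IsClosed Y) (_hdiscrete : DiscreteTopology Y) (hY : #Y = ℵ₁)
    (B : Y → Set (Set X)) (hB : ∀ y : Y, IsLocalBase (y : X) (B y))
    (_hBY : ∀ y : Y, ∀ U ∈ B y, ∀ z ∈ Y, z ∈ U → z = y)
    (F : Set (Y → Set X)) (hF : ∀ f ∈ F, ∀ y : Y, f y ∈ B y)
    (hcard : #F < #G)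
    (hwit : ∀ Z : Set Y, ∃ f ∈ F, WitnessesNormality f Z) :
    IsSeparatedSubset Y :=
  separated_of_family Y hY F (fun f hf y => (hB y).1 _ (hF f hf y)) hwit Ω hΩ G
    (max_lt hcard hG₁) hG

end Pool.Agent.Results.MP_56e317_lc.EventuallyDifferentFunctions
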