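import Mathlib
import Pool.Agent.Helper14.NW.Defs
import Pool.Agent.Helper14.NW.Main
import Pool.Agent.Helper14.PCF.Final

/-!
MP_56e317_lc, Q1: the negated form is a theorem of ZFC. If `2^ℵ₀ < 2^ℵ₁` then (A) holds: for
every normal space `X` and every closed discrete `Y ⊆ X` of size `ℵ₁` whose normality is
witnessed by at most `2^ℵ₀` basic functions, `Y` is separated.
-/

open Cardinal Ordinal Set

universe u

namespace Pool.Agent.Results.MP_56e317_lc.SeparationTheorem

open Pool.Agent.Helper14.NW

/-- Assertion (A) of the problem: for every normal space `X`, every closed discrete `Y ⊆ X` of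
size `ℵ₁`, every choice of local bases `B y` at the points of `Y` whose members contain no
other point of `Y`, and every family `F` of at most `2^ℵ₀` basic functions such that every
`Z ⊆ Y` is witnessed by some member of `F`, the subspace `Y` is separated. -/
def AssertionA : Prop :=
  ∀ (X : Type u) [TopologicalSpace X] [NormalSpace X]
    (Y : Set X), IsClosed Y → DiscreteTopology Y → #Y = ℵ₁ →
    ∀ (B : Y → Set (Set X)), (∀ y : Y, IsLocalBase (y : X) (B y)) →
    (∀ y : Y, ∀ U ∈ B y, ∀ z ∈ Y, z ∈ U → z = y) →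
    ∀ (F : Set (Y → Set X)), (∀ f ∈ F, ∀ y : Y, f y ∈ B y) →
    #F ≤ (𝔠 : Cardinal.{u}) →
    (∀ Z : Set Y, ∃ f ∈ F, WitnessesNormality f Z) →
    IsSeparatedSubset Y

theorem result (h : (𝔠 : Cardinal.{u}) < 2 ^ (ℵ₁ : Cardinal.{u})) : AssertionA.{u} := by
  intro X _ _ Y _ _ hY B hB _ F hF hcard hwit
  exact separated_of_comb Y F (fun f hf y => (hB y).1 _ (hF f hf y)) hwit
    fun E hcap => Pool.Agent.Helper14.PCF.sep_of_lt E hY hcap hcard h

end Pool.Agent.Results.MP_56e317_lc.SeparationTheorem
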